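import Pool.Agent.PFD.StmtsD3

/-!
# Squad PFD, row ACW: the action on `R1 [W]`
-/

open scoped BigOperators

noncomputable section

namespace Pool.Agent.PFD.D3.H19

open Pool.Agent.PFD Pool.Agent.PFD.D3

/-- the automorphism of `R1 [W]` which belongs to an automorphism of `R1` and one of `W` -/
def au {R R1 W : Type} [CommRing R] [CommRing R1] [Algebra R R1] [CommGroup W]
    (a : R1 ≃ₐ[R] R1) (s : MulAut W) : MonoidAlgebra R1 W ≃ₐ[R] MonoidAlgebra R1 W :=
  (MonoidAlgebra.domCongr R R1 s).trans (MonoidAlgebra.mapAlgEquiv R W a)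

theorem au_single {R R1 W : Type} [CommRing R] [CommRing R1] [Algebra R R1] [CommGroup W]
    (a : R1 ≃ₐ[R] R1) (s : MulAut W) (w : W) (r : R1) :
    au a s (MonoidAlgebra.single w r) = MonoidAlgebra.single (s w) (a r) := by
  change MonoidAlgebra.mapAlgEquiv R W a (MonoidAlgebra.domCongr R R1 s
    (MonoidAlgebra.single w r)) = _
  rw [MonoidAlgebra.domCongr_single]
  simp

/-- ACW. -/
theorem acw : AcwStmt := by
  intro R R1 W E _ _ _ _ _ act ψ
  refine ⟨{ toFun := fun e => au (act e) (ψ e), map_one' := ?_, map_mul' := ?_ }, ?_⟩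
  · apply AlgEquiv.ext
    intro x
    induction x using MonoidAlgebra.induction_linear with
    | zero => simp
    | add f g hf hg => rw [map_add, hf, hg, map_add]
    | single w r => rw [au_single, map_one, map_one]; rfl
  · intro e g
    apply AlgEquiv.ext
    intro x
    induction x using MonoidAlgebra.induction_linear with
    | zero => simp
    | add f g hf hg => rw [map_add, hf, hg, map_add]
    | single w r =>
      rw [AlgEquiv.mul_apply, au_single, au_single, au_single, map_mul, map_mul]
      rfl
  · intro e w r
    exact au_single _ _ _ _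

end Pool.Agent.PFD.D3.H19
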