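import Pool.Agent.PFD.D1.Key

/-!
# Squad PFD, row GB3: the `B`-part, rotated by two
-/

open scoped BigOperators

noncomputable section

namespace Pool.Agent.PFD.H19

open Pool.Agent.PFC.B1 Pool.Agent.PFD

theorem swap4 {X I : Type} [AddCommMonoid X] [Fintype I] (f : I → I → I → I → X) :
    ∑ i1, ∑ i2, ∑ i3, ∑ i4, f i1 i2 i3 i4 = ∑ i3, ∑ i4, ∑ i1, ∑ i2, f i1 i2 i3 i4 := by
  have h1 : ∑ i1, ∑ i2, ∑ i3, ∑ i4, f i1 i2 i3 i4 =
      ∑ p : I × I, ∑ q : I × I, f p.1 p.2 q.1 q.2 := by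
    simp only [Fintype.sum_prod_type]
  have h2 : ∑ i3, ∑ i4, ∑ i1, ∑ i2, f i1 i2 i3 i4 =
      ∑ q : I × I, ∑ p : I × I, f p.1 p.2 q.1 q.2 := by
    simp only [Fintype.sum_prod_type]
  rw [h1, h2, Finset.sum_comm]

/-- GB3. -/
theorem gb3 : Gb3Stmt := by
  intro R B A I J N _ _ _ _ _ _ _ _ D v
  unfold Net.GB
  refine Finset.sum_congr rfl fun r _ => Finset.sum_congr rfl fun s _ => ?_
  rw [swap4]
  refine Finset.sum_congr rfl fun i3 _ => Finset.sum_congr rfl fun i4 _ =>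
    Finset.sum_congr rfl fun i1 _ => Finset.sum_congr rfl fun i2 _ => ?_
  have hw : D.w4 (I1 R B) (I1 R B) v (I1 R B) (D.c.b' i1) (D.c.b' i2) (D.c.b' i3) (D.c.b' i4) =
      D.op.w4 v (I1 R B) (I1 R B) (I1 R B) (D.op.c.b' i3) (D.op.c.b' i4) (D.op.c.b' i1)
        (D.op.c.b' i2) := by
    change D.c.lam (D.c.b' i1 * D.c.b' i2 * v (D.c.b' i3) * D.c.b' i4) =
      D.c.lam (v (D.c.b' i3) * D.c.b' i4 * D.c.b' i1 * D.c.b' i2)
    rw [mul_assoc (D.c.b' i1 * D.c.b' i2), D.cs]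
    simp only [mul_assoc]
  rw [← Finset.mul_sum, ← Finset.mul_sum, hw]
  congr 1
  have hF : Bil R (fun p q : A => D.T (p * D.x r * D.u i1 * D.x s * D.u i2) *
      D.T (D.y r * D.u i3 * D.y s * D.u i4 * q)) :=
    ⟨fun p p' q => by simp only [add_mul, D.T_add],
      fun p q q' => by simp only [mul_add, D.T_add],
      fun c p q => by simp only [smul_mul_assoc, D.T_smul, smul_eq_mul]; ring,
      fun c p q => by simp only [mul_smul_comm, D.T_smul, smul_eq_mul]; ring⟩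
  have h3 := D.n3 hF
  calc ∑ k, D.T (D.x r * D.u i1 * D.x s * D.u i2 * D.u k) *
        D.T (D.u' k * D.y r * D.u i3 * D.y s * D.u i4)
      = ∑ k, D.T (D.u k * D.x r * D.u i1 * D.x s * D.u i2) *
        D.T (D.y r * D.u i3 * D.y s * D.u i4 * D.u' k) := by
        refine Finset.sum_congr rfl fun k _ => ?_
        rw [D.T_comm _ (D.u k), D.T_comm _ (D.u' k)]
        simp only [mul_assoc]
    _ = ∑ k, D.T (D.u' k * D.x r * D.u i1 * D.x s * D.u i2) *
        D.T (D.y r * D.u i3 * D.y s * D.u i4 * D.u k) := h3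
    _ = _ := by
        refine Finset.sum_congr rfl fun k _ => ?_
        change _ = D.T (D.y r * D.u i3 * D.y s * D.u i4 * D.u k) *
          D.T (D.u' k * D.x r * D.u i1 * D.x s * D.u i2)
        rw [mul_comm]

end Pool.Agent.PFD.H19
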