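import Pool.Agent.PFD.StmtsD4

/-!
# Squad PFD, row MEQ: top of D2b and D4
-/

open scoped BigOperators TensorProduct

noncomputable section

namespace Pool.Agent.PFD.D4.H19

open Pool.Agent.PFD Pool.Agent.PFD.D2 Pool.Agent.PFD.D2b Pool.Agent.PFD.D4

/-- MEQ. -/
theorem meq (hLAT : D2b.LatStmt) (hLRX : LrxStmt) (hZON : ZonStmt) (hKBC : KbcStmt)
    (hKLT : KltStmt) (hCNR : CnrStmt) (hCNK : CnkStmt) : MeqStmt := by
  intro R F V E A Γ _ _ _ _ _ _ _ _ ℓ c o φ W z _ _ _ _ bo tx hst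
  classical
  let _ : Fintype W := bo.fw
  have := o.dom
  have := o.pid
  have := o.ch0
  have := tx.fin
  let _ : Fintype tx.N := tx.fN
  have : FiniteDimensional F (CP (D0 φ z)) := by
    refine FiniteDimensional.of_injective tx.j.toLinearMap ?_
    intro a b hab
    have h1 : tx.pr (tx.j a) = tx.pr (tx.j b) := congrArg tx.pr hab
    rwa [tx.pr_j, tx.pr_j] at h1
  obtain ⟨I, _, D, A1, _, _, _, _, hlam, -, ⟨la⟩⟩ := hLAT R F V E A Γ ℓ c o φ W z bo tx hst
  have hctr : ∀ a : CP (D0 φ z), (∀ γ, a * γ = γ * a) →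
      ∃ b : Γ, (∀ γ, b * γ = γ * b) ∧ bo.fb.q b = a := by
    intro a ha
    obtain ⟨b, hb, hba⟩ := bo.ctr a (Subalgebra.mem_center_iff.2 fun γ => (ha γ).symm)
    exact ⟨b, fun γ => (Subalgebra.mem_center_iff.1 hb γ).symm, hba⟩
  obtain ⟨lr⟩ := hLRX R F Γ (CP (D0 φ z)) A A1 W I tx.N c D bo.fb tx.j tx.pr tx.mu la tx.x tx.y
    tx.pr_j tx.pr_l tx.pr_r tx.mus tx.orth tx.mun hctr tx.e1 tx.e2 tx.unt
  have hzon := hZON R F Γ (CP (D0 φ z)) A A1 W I c D bo.fb tx.j tx.pr lr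
  have h1 := hCNR R F A A1 c lr.fb hzon
  have h2 := hCNR R F (CP (D0 φ z)) Γ c bo.fb hctr
  -- the field `K`
  let K : Type := AlgebraicClosure (FractionRing R)
  have : CharZero (FractionRing R) :=
    charZero_of_injective_algebraMap (IsFractionRing.injective R (FractionRing R))
  have : CharZero K :=
    charZero_of_injective_algebraMap (FaithfulSMul.algebraMap_injective (FractionRing R) K)
  have : FaithfulSMul R K := by
    rw [faithfulSMul_iff_algebraMap_injective, IsScalarTower.algebraMap_eq R (FractionRing R) K]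
    exact (FaithfulSMul.algebraMap_injective (FractionRing R) K).comp
      (IsFractionRing.injective R (FractionRing R))
  obtain ⟨J, N, _, _, ⟨kl⟩⟩ := hKBC R F Γ (CP (D0 φ z)) A A1 W I K c D bo.fb tx.j tx.pr lr bo.v
    bo.P bo.N bo.wt bo.v_mul bo.P_v bo.P_nil bo.wt_pos (by
      intro a
      rw [hlam]
      exact bo.t_v a)
  have h3 := hKLT K (K ⊗[R] Γ) (K ⊗[R] A1) (I × W) J N kl
  have h4 := hCNK R K A1
  have h5 := hCNK R K Γ
  rw [h1, h2, ← h4, ← h5, h3]

end Pool.Agent.PFD.D4.H19
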